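import Mathlib
import Pool.Agent.Y757.LS.Crit

set_option autoImplicit false

/-!
# Large values of zeta on the critical line force large values of the integrated argument nearby

Let `J(t) = ∫_{1/2}^2 log |ζ(σ + it)| dσ`.  By Littlewood's formula `J(t)` is `π S₁(t)` up to a bounded
error (this is not used), so lower bounds of `J` are one-sided statements about the ordinates of the
zeros.  If `|ζ(1/2 + iT)| ≥ T ^ κ` then `J(t) ≥ a log T` at some point `t` at a bounded distance from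
`T`, for every `a < κ²` if `1/8 ≤ κ ≤ 1/4`, and for every `a < (64/27) κ³ / (1 - 16κ/3)` if
`0 < κ ≤ 1/8`.  There is a uniform version for the values `e ^ V` with `V³ ≥ C (log T)²`.
-/

namespace Pool.Agent.Results.MP_4e5e8a_nt.LargeValuesForceArgument

open MeasureTheory

/-- `|ζ(1/2 + it)|` -/
noncomputable def Z (t : ℝ) : ℝ := ‖riemannZeta (1 / 2 + (t : ℂ) * Complex.I)‖

/-- `J(t) = ∫_{1/2}^2 log |ζ(σ + it)| dσ` -/
noncomputable def J (t : ℝ) : ℝ :=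
  ∫ σ in (1 / 2 : ℝ)..2, Real.log ‖riemannZeta ((σ : ℂ) + (t : ℂ) * Complex.I)‖

/-- `|ζ(1/2 + it)| = O((1 + |t|) ^ (κ + ε))` for every `ε > 0`; for `κ = 0` this is the Lindelöf
hypothesis -/
def Exponent (κ : ℝ) : Prop := ∀ ε : ℝ, 0 < ε → ∃ C : ℝ, ∀ t : ℝ, Z t ≤ C * (1 + |t|) ^ (κ + ε)

/-- the pairs of exponents -/
def Forced (κ a : ℝ) : Prop :=
  (1 / 8 ≤ κ ∧ κ ≤ 1 / 4 ∧ a < κ ^ 2) ∨
    (0 < κ ∧ κ ≤ 1 / 8 ∧ a < 64 / 27 * κ ^ 3 / (1 - 16 / 3 * κ))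

theorem law_of {κ a : ℝ} (h : Forced κ a) : Pool.Agent.Y757.LS.Law κ a := by
  rcases h with ⟨h1, h2, h3⟩ | ⟨h1, h2, h3⟩
  · exact Pool.Agent.Y757.LS.law_sq h1 h2 h3
  · exact Pool.Agent.Y757.LS.law_cube h1 h2 h3

theorem result :
    -- values of the size of a power
    (∀ κ a : ℝ, Forced κ a → ∃ B T₀ : ℝ, ∀ T : ℝ, T₀ ≤ T → T ^ κ ≤ Z T →
      ∃ t : ℝ, |t - T| ≤ B ∧ a * Real.log T ≤ J t) ∧
    -- the uniform version
    (∃ C T₀ : ℝ, 0 < C ∧ ∀ T : ℝ, T₀ ≤ T → C * Real.log T ^ 2 ≤ Real.log (Z T) ^ 3 →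
      ∃ t : ℝ, (t - T) ^ 2 ≤ C * (Real.log T / Real.log (Z T)) ^ 3 ∧
        Real.log (Z T) ^ 3 / (64 * Real.log T ^ 2) ≤ J t) ∧
    -- a one-sided bound of `J` bounds `ζ`
    (∀ κ a T₀ : ℝ, Forced κ a → (∀ t : ℝ, T₀ ≤ t → J t ≤ a * Real.log t) → Exponent κ) ∧
    -- the Lindelöf hypothesis
    (Exponent 0 ↔ ∀ ε : ℝ, 0 < ε → ∃ T₀ : ℝ, ∀ t : ℝ, T₀ ≤ t → J t ≤ ε * Real.log t) := by
  refine ⟨fun κ a h => Pool.Agent.Y757.LS.law_pow (law_of h), Pool.Agent.Y757.LS.law_unif, ?_,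
    Pool.Agent.Y757.LS.lindelof_iff⟩
  intro κ a T₀ h hJ
  refine Pool.Agent.Y757.LS.crit ?_ (law_of h) hJ
  rcases h with ⟨h1, h2, h3⟩ | ⟨h1, h2, h3⟩
  · linarith
  · exact h1.le

end Pool.Agent.Results.MP_4e5e8a_nt.LargeValuesForceArgument
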