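import Pool.Agent.Results.MP_4e5e8a_nt.WindowsOfOrdinates
import Pool.Agent.V11001.KM.RealWin
import Pool.Agent.V11001.KM.Nat

/-!
# The Lindelöf bound near the powers of almost every real number

Let `ν n / log n → ∞`, for example `ν n = n`. For all real `x > 1` outside a set of Hausdorff dimension at most
`max 0 (1 - 4 κ) / (1 - θ)` ALL real `t` with `|t - β x ^ (ν n)| ≤ x ^ (θ ν n)`, `n` large, satisfy
`|ζ(1/2 + i t)| ≤ t ^ κ`. For almost all `x > 1` this holds for all `κ > 0` and `θ < min 1 (4 κ)`.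
-/

set_option autoImplicit false

namespace Pool.Agent.Results.MP_4e5e8a_nt.OrdinatesNearPowers

open MeasureTheory Filter Topology Pool.Agent.V11001.KM
open WindowsOfOrdinates (Z count)

/-- `Z t ≤ t ^ κ` for all real `t` with `|t - β x ^ (ν n)| ≤ x ^ (θ ν n)`, `n` large -/
def Bounded (ν : ℕ → ℝ) (κ θ β x : ℝ) : Prop :=
  ∃ n₀ : ℕ, ∀ n : ℕ, n₀ ≤ n → ∀ t : ℝ, |t - β * x ^ ν n| ≤ x ^ (θ * ν n) → Z t ≤ t ^ κ

theorem dim {ν : ℕ → ℝ} {θ κ : ℝ} (hν : Fast ν) (hθ : 0 ≤ θ) (hθ1 : θ < 1) (hκ : 0 < κ) (U : Set ℝ) (hU : U.Countable) :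
    ∃ E : Set ℝ, dimH E ≤ ENNReal.ofReal (max 0 (1 - 4 * κ) / (1 - θ)) ∧
      ∀ x : ℝ, 1 < x → x ∉ E → ∀ β ∈ U, 0 < β → Bounded ν κ θ β x := by
  obtain ⟨E, h1, h2⟩ := real_powers (Pool.Agent.H107.ZW.Exc κ) hν (le_max_left _ _) hθ hθ1 (count hκ) U hU
  refine ⟨E, h1, fun x hx hxE β hβ hβ0 => ?_⟩
  obtain ⟨n₁, h3⟩ := h2 x hx hxE β hβ hβ0
  obtain ⟨n₂, h4⟩ := large_of_near hν hβ0 hθ1 hx 1
  refine ⟨max n₁ n₂, fun n hn t ht => ?_⟩
  have h6 : 1 ≤ t := h4 n ((le_max_right _ _).trans hn) t ht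
  have h7 := h3 n ((le_max_left _ _).trans hn) t (by linarith) ht
  by_contra h8
  rw [not_le] at h8
  exact h7 ⟨Nat.le_floor (by exact_mod_cast h6), t, Nat.floor_le (by linarith), Nat.lt_floor_add_one t, h8⟩

/-- **Theorem.** Let `ν n / log n → ∞` and let `U` be countable. (1) For `κ > 0` and `0 ≤ θ < 1` there is a set `E` of
Hausdorff dimension at most `max (0, 1 - 4 κ) / (1 - θ)` such that for each `x > 1` outside `E` and each positive `β` in `U`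
all real `t` with `|t - β x ^ (ν n)| ≤ x ^ (θ ν n)`, `n` large, satisfy `|ζ(1/2 + i t)| ≤ t ^ κ`. (2) For almost all `x > 1`
this holds for all `κ > 0` and all `θ < min (1, 4 κ)`. (3) For `β > 0` and `κ > 0` the set of the `x > 1` with
`|ζ(1/2 + i β x ^ (ν n))| > (β x ^ (ν n)) ^ κ` for infinitely many `n` has Hausdorff dimension at most
`max (0, 1 - 4 κ)`. -/
theorem result (ν : ℕ → ℝ) (hν : Fast ν) :
    (∀ (κ θ : ℝ) (U : Set ℝ), 0 < κ → 0 ≤ θ → θ < 1 → U.Countable →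
      ∃ E : Set ℝ, dimH E ≤ ENNReal.ofReal (max 0 (1 - 4 * κ) / (1 - θ)) ∧
        ∀ x : ℝ, 1 < x → x ∉ E → ∀ β ∈ U, 0 < β → Bounded ν κ θ β x) ∧
    (∀ U : Set ℝ, U.Countable → ∀ᵐ x : ℝ, 1 < x → ∀ κ θ : ℝ, 0 < κ → θ < 1 → θ < 4 * κ → ∀ β ∈ U, 0 < β →
      Bounded ν κ θ β x) ∧
    (∀ β κ : ℝ, 0 < β → 0 < κ →
      dimH {x : ℝ | 1 < x ∧ ∃ᶠ n in atTop, (β * x ^ ν n) ^ κ < Z (β * x ^ ν n)} ≤ ENNReal.ofReal (max 0 (1 - 4 * κ))) := by
  refine ⟨fun κ θ U hκ hθ hθ1 hU => dim hν hθ hθ1 hκ U hU, fun U hU => ?_, fun β κ hβ hκ => ?_⟩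
  · -- rational exponents
    have hq : ∀ p : ℚ × ℚ, ∃ E : Set ℝ, volume E = 0 ∧ (0 < (p.1 : ℝ) → 0 ≤ (p.2 : ℝ) → (p.2 : ℝ) < 1 →
        (p.2 : ℝ) < 4 * p.1 → ∀ x : ℝ, 1 < x → x ∉ E → ∀ β ∈ U, 0 < β → Bounded ν p.1 p.2 β x) := by
      intro p
      by_cases h : 0 < (p.1 : ℝ) ∧ 0 ≤ (p.2 : ℝ) ∧ (p.2 : ℝ) < 1 ∧ (p.2 : ℝ) < 4 * p.1
      · obtain ⟨h1, h2, h3, h4⟩ := h
        obtain ⟨E, g1, g2⟩ := dim hν h2 h3 h1 U hU
        refine ⟨E, ?_, fun _ _ _ _ => g2⟩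
        rw [← hausdorffMeasure_real]
        refine hausdorffMeasure_of_dimH_lt (d := 1) ?_
        refine g1.trans_lt ?_
        have g3 : max 0 (1 - 4 * (p.1 : ℝ)) / (1 - (p.2 : ℝ)) < 1 := by
          rw [div_lt_one (by linarith), max_lt_iff]
          constructor <;> linarith
        have g4 := (ENNReal.ofReal_lt_one).2 g3
        simpa using g4
      · exact ⟨∅, measure_empty, fun h1 h2 h3 h4 => absurd ⟨h1, h2, h3, h4⟩ h⟩
    choose E hE1 hE2 using hq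
    have hae : ∀ᵐ x : ℝ, ∀ p, x ∉ E p := by
      rw [ae_all_iff]
      intro p
      exact compl_mem_ae_iff.2 (hE1 p)
    filter_upwards [hae] with x hxE hx κ θ hκ hθ1 hθκ β hβ hβ0
    -- rational exponents between the given ones
    obtain ⟨θ', h1, h2⟩ : ∃ θ' : ℚ, max 0 θ < (θ' : ℝ) ∧ (θ' : ℝ) < min 1 (4 * κ) :=
      exists_rat_btwn (max_lt (lt_min one_pos (by linarith)) (lt_min hθ1 hθκ))
    obtain ⟨κ', h3, h4⟩ : ∃ κ' : ℚ, (θ' : ℝ) / 4 < (κ' : ℝ) ∧ (κ' : ℝ) < κ :=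
      exists_rat_btwn (by linarith [(lt_min_iff.1 h2).2])
    have h5 := (max_lt_iff.1 h1)
    have h6 := (lt_min_iff.1 h2)
    obtain ⟨n₀, h7⟩ := hE2 (κ', θ') (by simp only; linarith [h5.1]) h5.1.le h6.1 (by simp only; linarith)
      x hx (hxE _) β hβ hβ0
    obtain ⟨n₁, h8⟩ := large_of_near hν hβ0 h6.1 hx 1
    obtain ⟨n₂, h9⟩ := ((tendsto_lam hν).eventually_ge_atTop 0).exists_forall_of_atTop
    refine ⟨max n₀ (max n₁ n₂), fun n hn t ht => ?_⟩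
    have hn0 : n₀ ≤ n := (le_max_left _ _).trans hn
    have hn1 : n₁ ≤ n := ((le_max_left _ _).trans (le_max_right _ _)).trans hn
    have hn2 : n₂ ≤ n := ((le_max_right _ _).trans (le_max_right _ _)).trans hn
    have g1 : x ^ (θ * ν n) ≤ x ^ ((θ' : ℝ) * ν n) :=
      Real.rpow_le_rpow_of_exponent_le hx.le (mul_le_mul_of_nonneg_right h5.2.le (h9 n hn2))
    have g2 : 1 ≤ t := h8 n hn1 t (ht.trans g1)
    exact (h7 n hn0 t (ht.trans g1)).trans (Real.rpow_le_rpow_of_exponent_le g2 h4.le)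
  · obtain ⟨E, h1, h2⟩ := dim hν le_rfl one_pos hκ {β} (Set.countable_singleton β)
    rw [sub_zero, div_one] at h1
    refine (dimH_mono ?_).trans h1
    rintro x ⟨hx, hf⟩
    by_contra hxE
    obtain ⟨n₀, h3⟩ := h2 x hx hxE β rfl hβ
    refine hf ?_
    filter_upwards [eventually_ge_atTop n₀] with n hn hlt
    refine absurd (h3 n hn (β * x ^ ν n) ?_) (not_le.2 hlt)
    rw [sub_self, abs_zero]
    exact Real.rpow_nonneg (by linarith) _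

end Pool.Agent.Results.MP_4e5e8a_nt.OrdinatesNearPowers
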