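import Mathlib
import Pool.Agent.V11273.LHX.Bk

set_option autoImplicit false

/-!
# The Lindelöf hypothesis and the zeros of `e^{iθ} ξ(s + h) + e^{-iθ} ξ(s - h)`

On the critical line this function is `2 Re (e^{iθ} ξ(1/2 + h + it))`. We show that `ζ(1/2 + h + it) = O(|t|^ε)` for
every `ε > 0` if and only if, for two different phases `θ` (modulo `π`), it has `o(log T)` zeros at distance `≥ δ` from
the critical line with ordinates in `[T - 1, T + 1]`, for every `δ > 0`; this then holds for all phases, uniformly. The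
Lindelöf hypothesis holds if and only if, for one phase with `cos θ ≠ 0`, for example for the functions
`ξ(s + h) + ξ(s - h)`, this holds for every `h > 0`.

Proof. Let `X(z) = 8 ξ(1/2 + z)`, `L = (log T)/2`, let `H(z)` be the archimedean factor, so that `X = H ζ(1/2 + ·)`.
By convexity the bound for zeta is equivalent to `|X(iT + u)| ≤ exp(L max(|Re u|, h) + εL) |H(iT)|`. Forward: this
bounds the combination by `exp(L (Re u + h) + εL) |H(iT)|` for `Re u ≥ 0`, and far to the right this is attained;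
Jensen's inequality in a large disc touching the line. Backward: if there are few zeros, the Borel-Carathéodory and
three circles theorems give `exp(L (Re u + h) + εL) |H(iT)|` as a bound for the combinations for `Re u ≥ η`; then one
solves for `X(iT + u + h)`, from two phases, or from one phase and the two shifts `h` and `2h`.
-/

open Complex Filter Topology Set

namespace Pool.Agent.Results.MP_4e5e8a_nt.ShiftedXiZeros

noncomputable section

/-- Riemann's function `ξ(s) = (1/2) s (s-1) π^{-s/2} Γ(s/2) ζ(s)`, an entire function. -/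
def xi (s : ℂ) : ℂ := s * (s - 1) / 2 * completedRiemannZeta₀ s + 1 / 2

/-- The function `e^{iθ} ξ(s + h) + e^{-iθ} ξ(s - h)`. -/
def F (h θ : ℝ) (s : ℂ) : ℂ := cexp (θ * I) * xi (s + h) + cexp (-(θ * I)) * xi (s - h)

/-- `ζ(σ + it) = O(|t|^ε)`, `|t| ≥ 1`, for every `ε > 0`. -/
def Subpower (σ : ℝ) : Prop := ∀ ε : ℝ, 0 < ε → ∃ C : ℝ, ∀ t : ℝ, 1 ≤ |t| →
  ‖riemannZeta (σ + t * I)‖ ≤ C * |t| ^ ε

/-- The Lindelöf hypothesis. -/
def Lindelof : Prop := ∀ ε : ℝ, 0 < ε → ∃ C : ℝ, ∀ t : ℝ, ‖riemannZeta (1 / 2 + t * I)‖ ≤ C * (1 + |t|) ^ ε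

/-- `F h θ` has at most `c` zeros, counted with multiplicity, at distance at least `δ` from the critical line and with
ordinate in `[T - 1, T + 1]`. -/
def AtMost (h θ T δ c : ℝ) : Prop := ∀ S : Finset ℂ, (∀ s ∈ S, F h θ s = 0 ∧ δ ≤ |s.re - 1 / 2| ∧ |s.im - T| ≤ 1) →
  ∑ s ∈ S, (analyticOrderNatAt (F h θ) s : ℝ) ≤ c

/-- For every `δ > 0` the function `F h θ` has `o(log T)` zeros at distance `≥ δ` from the critical line with ordinate in
`[T - 1, T + 1]`, `T → ∞`. -/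
def FewZeros (h θ : ℝ) : Prop := ∀ δ ε : ℝ, 0 < δ → 0 < ε → ∃ T₀ : ℝ, ∀ T : ℝ, T₀ ≤ T →
  AtMost h θ T δ (ε * Real.log T)

/-- The same, uniformly in `θ`. -/
def FewZerosUniformly (h : ℝ) : Prop := ∀ δ ε : ℝ, 0 < δ → 0 < ε → ∃ T₀ : ℝ, ∀ T : ℝ, T₀ ≤ T → ∀ θ : ℝ,
  AtMost h θ T δ (ε * Real.log T)

open Pool.Agent.H24R2.JP (XX Om)
open Pool.Agent.V11273.DX
open Pool.Agent.V11273.LHX

/-! ## comparison with `XX z = 8 ξ(1/2 + z)` -/

lemma xi_half (z : ℂ) : xi (1 / 2 + z) = XX z / 8 := by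
  unfold xi Pool.Agent.H24R2.JP.XX
  ring

lemma xi_eq (s : ℂ) : xi s = XX (s - 1 / 2) / 8 := by
  rw [← xi_half]; congr 1; ring

lemma F_eq (h θ : ℝ) (s : ℂ) : F h θ s = 8⁻¹ * FF h θ (s - 1 / 2) := by
  unfold F FF
  rw [xi_eq, xi_eq]
  have e1 : (s + h - 1 / 2 : ℂ) = s - 1 / 2 + h := by ring
  have e2 : (s - h - 1 / 2 : ℂ) = s - 1 / 2 - h := by ring
  rw [e1, e2]
  ring

lemma F_zero (h θ : ℝ) (s : ℂ) : F h θ s = 0 ↔ FF h θ (s - 1 / 2) = 0 := by
  rw [F_eq, mul_eq_zero]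
  constructor
  · rintro (h1 | h1)
    · norm_num at h1
    · exact h1
  · exact fun h1 => Or.inr h1

lemma F_fun (h θ : ℝ) : F h θ = fun s => 8⁻¹ * (fun w => FF h θ (w + (-(1 / 2)))) s := by
  funext s
  rw [F_eq, sub_eq_add_neg]

lemma F_mult (h θ : ℝ) (s : ℂ) : analyticOrderNatAt (F h θ) s = analyticOrderNatAt (FF h θ) (s - 1 / 2) := by
  have h1 : H370.mult (F h θ) s = analyticOrderNatAt (F h θ) s := rfl
  have h2 : H370.mult (FF h θ) (s - 1 / 2) = analyticOrderNatAt (FF h θ) (s - 1 / 2) := rfl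
  rw [← h1, ← h2, F_fun, mult_const (f := fun w => FF h θ (w + (-(1 / 2)))) ?_ (by norm_num), mult_comp_add,
    ← sub_eq_add_neg]
  intro z
  exact ((FF_diff h θ).differentiableAt).comp z (by fun_prop)

lemma atMost_iff (h θ T δ c : ℝ) : AtMost h θ T δ c ↔ CnF h θ T δ c := by
  classical
  have e1 : ∀ z : ℂ, (z - 1 / 2).re = z.re - 1 / 2 := fun z => by simp
  have e2 : ∀ z : ℂ, (z - 1 / 2).im = z.im := fun z => by simp
  constructor
  · intro H S hS
    have h1 := H (S.image (fun z => z + 1 / 2)) (by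
      intro s hs
      rw [Finset.mem_image] at hs
      obtain ⟨z, hz, rfl⟩ := hs
      obtain ⟨z0, z1, z2⟩ := hS z hz
      rw [F_zero, ← e1, ← e2 (z + 1 / 2), add_sub_cancel_right]
      exact ⟨z0, z1, z2⟩)
    rw [Finset.sum_image (fun a _ b _ hab => add_right_cancel hab)] at h1
    refine le_trans (le_of_eq (Finset.sum_congr rfl fun z _ => ?_)) h1
    rw [F_mult, add_sub_cancel_right]
  · intro H S hS
    have h1 := H (S.image (fun z => z - 1 / 2)) (by
      intro s hs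
      rw [Finset.mem_image] at hs
      obtain ⟨z, hz, rfl⟩ := hs
      obtain ⟨z0, z1, z2⟩ := hS z hz
      rw [e1, e2]
      exact ⟨(F_zero _ _ _).1 z0, z1, z2⟩)
    rw [Finset.sum_image (fun a _ b _ hab => sub_left_injective hab)] at h1
    refine le_trans (le_of_eq (Finset.sum_congr rfl fun z _ => ?_)) h1
    rw [F_mult]

lemma few_iff (h θ : ℝ) : FewZeros h θ ↔ Few h θ := by
  unfold FewZeros Few
  simp only [atMost_iff]

lemma fewU_iff (h : ℝ) : FewZerosUniformly h ↔ FewU h := by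
  unfold FewZerosUniformly FewU
  simp only [atMost_iff]

/-! ## the bound for zeta -/

lemma zeta_refl (σ t : ℝ) : ‖riemannZeta (σ + ((|t| : ℝ) : ℂ) * I)‖ = ‖riemannZeta (σ + t * I)‖ := by
  rcases abs_cases t with ⟨h1, -⟩ | ⟨h1, -⟩
  · rw [h1]
  · rw [h1, ← Complex.norm_conj, ← riemannZeta_conj]
    congr 2
    simp

lemma Zb_of {h : ℝ} (H : ∀ ε : ℝ, 0 < ε → ∃ C T0 : ℝ, ∀ T : ℝ, T0 ≤ T →
    ‖riemannZeta (1 / 2 + h + T * I)‖ ≤ C * T ^ ε) : Zb h := by
  intro ε hε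
  obtain ⟨C, T0, hC⟩ := H (ε / 4) (by linarith)
  obtain ⟨T1, hT1, hO⟩ := Om_ge (Real.log (max C 1) / (ε / 2))
  refine ⟨max T0 T1, fun T hT => ?_⟩
  have g0 : T0 ≤ T := (le_max_left _ _).trans hT
  have g1 : T1 ≤ T := (le_max_right _ _).trans hT
  have hO1 := hO T g1
  rw [div_le_iff₀ (by linarith)] at hO1
  have hC1 : 0 < max C 1 := lt_max_of_lt_right one_pos
  have hTp : 0 < T := by linarith
  refine (hC T g0).trans ?_
  rw [rpow_Om hTp]
  calc C * Real.exp (2 * (ε / 4) * Om T) ≤ max C 1 * Real.exp (2 * (ε / 4) * Om T) := by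
        gcongr
        exact le_max_left _ _
    _ = Real.exp (Real.log (max C 1) + 2 * (ε / 4) * Om T) := by rw [Real.exp_add, Real.exp_log hC1]
    _ ≤ _ := by
        apply Real.exp_le_exp.2
        linarith

lemma of_Zb {h : ℝ} (H : Zb h) {ε : ℝ} (hε : 0 < ε) : ∃ T0 : ℝ, 1 ≤ T0 ∧ ∀ T : ℝ, T0 ≤ T →
    ‖riemannZeta (1 / 2 + h + T * I)‖ ≤ T ^ ε := by
  obtain ⟨T0, hT0⟩ := H (2 * ε) (by linarith)
  refine ⟨max T0 1, le_max_right _ _, fun T hT => ?_⟩
  have h1 : 1 ≤ T := (le_max_right _ _).trans hT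
  rw [rpow_Om (by linarith)]
  exact hT0 T ((le_max_left _ _).trans hT)

lemma cast_half (h : ℝ) : ((1 / 2 + h : ℝ) : ℂ) = 1 / 2 + h := by push_cast; ring

lemma subpower_iff (h : ℝ) : Subpower (1 / 2 + h) ↔ Zb h := by
  constructor
  · intro H
    refine Zb_of fun ε hε => ?_
    obtain ⟨C, hC⟩ := H ε hε
    refine ⟨C, 1, fun T hT => ?_⟩
    have h1 := hC T (by rw [abs_of_pos (by linarith)]; exact hT)
    rwa [abs_of_pos (by linarith), cast_half] at h1
  · intro H ε hε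
    obtain ⟨T0, hT0, h1⟩ := of_Zb H hε
    have hcont : ContinuousOn (fun t : ℝ => riemannZeta (((1 / 2 + h : ℝ) : ℂ) + t * I)) (Icc 1 T0) := by
      intro t ht
      have hne : (((1 / 2 + h : ℝ) : ℂ) + t * I) ≠ 1 := by
        intro h0
        have := congrArg Complex.im h0
        simp at this
        linarith [ht.1]
      refine ContinuousAt.continuousWithinAt ?_
      exact (differentiableAt_riemannZeta hne).continuousAt.comp (f := fun t : ℝ => (((1 / 2 + h : ℝ) : ℂ) + t * I))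
        (by fun_prop)
    obtain ⟨B, hB⟩ := isCompact_Icc.exists_bound_of_continuousOn hcont
    refine ⟨max B 1, fun t ht => ?_⟩
    rw [← zeta_refl]
    have hp : 1 ≤ |t| ^ ε := Real.one_le_rpow ht hε.le
    have hp0 : 0 ≤ |t| ^ ε := by linarith
    rcases le_total |t| T0 with h2 | h2
    · calc ‖riemannZeta (((1 / 2 + h : ℝ) : ℂ) + ((|t| : ℝ) : ℂ) * I)‖ ≤ B := hB |t| ⟨ht, h2⟩
        _ ≤ max B 1 * 1 := by rw [mul_one]; exact le_max_left _ _
        _ ≤ _ := by gcongr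
    · have h3 := h1 |t| h2
      rw [← cast_half] at h3
      calc ‖riemannZeta (((1 / 2 + h : ℝ) : ℂ) + ((|t| : ℝ) : ℂ) * I)‖ ≤ 1 * |t| ^ ε := by rw [one_mul]; exact h3
        _ ≤ _ := by
          gcongr
          exact le_max_right _ _

lemma lindelof_iff : Lindelof ↔ Zb 0 := by
  constructor
  · intro H
    refine Zb_of fun ε hε => ?_
    obtain ⟨C, hC⟩ := H ε hε
    refine ⟨|C| * 2 ^ ε, 1, fun T hT => ?_⟩
    have h1 := hC T
    rw [abs_of_pos (by linarith)] at h1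
    rw [Complex.ofReal_zero, add_zero]
    refine h1.trans ?_
    have h2 : (1 + T) ^ ε ≤ (2 * T) ^ ε := Real.rpow_le_rpow (by linarith) (by linarith) hε.le
    rw [Real.mul_rpow (by norm_num) (by linarith)] at h2
    calc C * (1 + T) ^ ε ≤ |C| * (2 ^ ε * T ^ ε) := by
          apply mul_le_mul (le_abs_self C) h2 (by positivity) (abs_nonneg C)
      _ = _ := by ring
  · intro H ε hε
    obtain ⟨T0, hT0, h1⟩ := of_Zb H hε
    have hcont : ContinuousOn (fun t : ℝ => riemannZeta (1 / 2 + t * I)) (Icc 0 T0) := by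
      intro t ht
      have hne : (1 / 2 + t * I : ℂ) ≠ 1 := by
        intro h0
        have := congrArg Complex.re h0
        simp at this
      refine ContinuousAt.continuousWithinAt ?_
      exact (differentiableAt_riemannZeta hne).continuousAt.comp (f := fun t : ℝ => (1 / 2 + t * I : ℂ))
        (by fun_prop)
    obtain ⟨B, hB⟩ := isCompact_Icc.exists_bound_of_continuousOn hcont
    refine ⟨max B 1, fun t => ?_⟩
    have e0 : (1 / 2 + t * I : ℂ) = ((1 / 2 : ℝ) : ℂ) + t * I := by push_cast; ring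
    have e1 : ∀ x : ℝ, ((1 / 2 : ℝ) : ℂ) + x * I = 1 / 2 + x * I := fun x => by push_cast; ring
    rw [e0, ← zeta_refl, e1]
    have hp : 1 ≤ (1 + |t|) ^ ε := Real.one_le_rpow (by linarith [abs_nonneg t]) hε.le
    have hp0 : 0 ≤ (1 + |t|) ^ ε := by linarith
    rcases le_total |t| T0 with h2 | h2
    · calc ‖riemannZeta (1 / 2 + ((|t| : ℝ) : ℂ) * I)‖ ≤ B := hB |t| ⟨abs_nonneg t, h2⟩
        _ ≤ max B 1 * 1 := by rw [mul_one]; exact le_max_left _ _
        _ ≤ _ := by gcongr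
    · have h3 := h1 |t| h2
      rw [Complex.ofReal_zero, add_zero] at h3
      have h4 : |t| ^ ε ≤ (1 + |t|) ^ ε := Real.rpow_le_rpow (abs_nonneg t) (by linarith) hε.le
      calc ‖riemannZeta (1 / 2 + ((|t| : ℝ) : ℂ) * I)‖ ≤ 1 * (1 + |t|) ^ ε := by
            rw [one_mul]; exact h3.trans h4
        _ ≤ _ := by
          gcongr
          exact le_max_right _ _

/-! ## large shifts -/

lemma few_large {h : ℝ} (hh : 1 / 2 ≤ h) : FewU h := by
  intro δ ε hδ hε
  refine ⟨1, fun T hT θ S hS => ?_⟩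
  have hemp : S = ∅ := by
    rw [Finset.eq_empty_iff_forall_notMem]
    intro z hz
    obtain ⟨z0, z1, -⟩ := hS z hz
    have hz0 : z.re ≠ 0 := by
      intro h0
      rw [h0, abs_zero] at z1
      linarith
    obtain ⟨b, hb0, hb1⟩ := loc (by linarith) hz0 z0
    have h3 := Pool.Agent.H24R2.JP.Zer.abs_re_le b hb0
    have h4 : b.re ^ 2 ≤ (1 / 2) ^ 2 := by rw [← sq_abs]; gcongr
    have h5 : 0 < z.re ^ 2 := by positivity
    nlinarith [sq_nonneg (z.im - b.im)]
  rw [hemp, Finset.sum_empty]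
  have : 0 ≤ Real.log T := Real.log_nonneg hT
  positivity

lemma Zb_large {h : ℝ} (hh : 1 / 2 ≤ h) : Zb h := by
  have h1 : Zb (1 / 2) := bwd2 (h := 1 / 2) (θ₁ := Real.pi / 2) (θ₂ := 0) (by norm_num) le_rfl
    (by rw [sub_zero, Real.sin_pi_div_two]; exact one_ne_zero) ((few_large le_rfl).few _) ((few_large le_rfl).few _)
  exact Zb_mono (by norm_num) hh h1

lemma fwd' {h : ℝ} (h0 : 0 < h) (hZ : Zb h) : FewU h := by
  rcases le_total h (1 / 2) with h1 | h1
  · exact fwd h0 h1 hZ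
  · exact few_large h1

lemma bwd' {h θ₁ θ₂ : ℝ} (h0 : 0 < h) (hs : Real.sin (θ₁ - θ₂) ≠ 0) (hF₁ : Few h θ₁) (hF₂ : Few h θ₂) : Zb h := by
  rcases le_total h (1 / 2) with h1 | h1
  · exact bwd2 h0 h1 hs hF₁ hF₂
  · exact Zb_large h1

lemma sin_pi_half : Real.sin (Real.pi / 2 - 0) ≠ 0 := by
  rw [sub_zero, Real.sin_pi_div_two]; exact one_ne_zero

/-- **The Lindelöf hypothesis and the zeros of combinations of two shifts of `ξ`.** -/
theorem result :
    -- the line `Re s = 1/2 + h`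
    (∀ h : ℝ, 0 < h → (Subpower (1 / 2 + h) ↔ FewZerosUniformly h)) ∧
    (∀ h θ₁ θ₂ : ℝ, 0 < h → Real.sin (θ₁ - θ₂) ≠ 0 →
      (Subpower (1 / 2 + h) ↔ FewZeros h θ₁ ∧ FewZeros h θ₂)) ∧
    -- the critical line: all phases and shifts
    (Lindelof ↔ ∀ h : ℝ, 0 < h → FewZerosUniformly h) ∧
    -- one phase
    (∀ θ : ℝ, Real.cos θ ≠ 0 → (Lindelof ↔ ∀ h : ℝ, 0 < h → FewZeros h θ)) ∧
    -- one phase, arbitrarily small shifts
    (∀ θ : ℝ, Real.cos θ ≠ 0 → (∀ η : ℝ, 0 < η → ∃ h : ℝ, 0 < h ∧ h < η ∧ FewZeros h θ ∧ FewZeros (2 * h) θ) →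
      Lindelof) := by
  have hL : ∀ h : ℝ, 0 < h → Zb 0 → Zb h := fun h h0 hZ => Zb_mono le_rfl h0.le hZ
  have one : ∀ θ : ℝ, Real.cos θ ≠ 0 →
      (∀ η : ℝ, 0 < η → ∃ h : ℝ, 0 < h ∧ h < η ∧ FewZeros h θ ∧ FewZeros (2 * h) θ) → Lindelof := by
    intro θ hθ H
    rw [lindelof_iff]
    refine bwd4 hθ fun η hη => ?_
    obtain ⟨h, h0, h1, h2, h3⟩ := H η hη
    exact ⟨h, h0, h1, (few_iff _ _).1 h2, (few_iff _ _).1 h3⟩
  refine ⟨fun h h0 => ?_, fun h θ₁ θ₂ h0 hs => ?_, ?_, fun θ hθ => ?_, one⟩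
  · rw [subpower_iff, fewU_iff]
    exact ⟨fwd' h0, fun H => bwd' h0 sin_pi_half (H.few _) (H.few _)⟩
  · rw [subpower_iff, few_iff, few_iff]
    exact ⟨fun H => ⟨(fwd' h0 H).few _, (fwd' h0 H).few _⟩, fun H => bwd' h0 hs H.1 H.2⟩
  · constructor
    · intro H h h0
      rw [fewU_iff]
      exact fwd' h0 (hL h h0 (lindelof_iff.1 H))
    · intro H
      refine one 0 (by rw [Real.cos_zero]; exact one_ne_zero) fun η hη => ?_
      refine ⟨η / 2, by linarith, by linarith, ?_, ?_⟩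
      · exact (few_iff _ _).2 (((fewU_iff _).1 (H _ (by linarith))).few _)
      · exact (few_iff _ _).2 (((fewU_iff _).1 (H _ (by linarith))).few _)
  · constructor
    · intro H h h0
      rw [few_iff]
      exact (fwd' h0 (hL h h0 (lindelof_iff.1 H))).few θ
    · intro H
      exact one θ hθ fun η hη => ⟨η / 2, by linarith, by linarith, H _ (by linarith), H _ (by linarith)⟩

end

end Pool.Agent.Results.MP_4e5e8a_nt.ShiftedXiZeros
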