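import Mathlib
import Pool.Agent.H107.ZetaWin
import Pool.Agent.H107.Dyad

/-!
# The Lindelöf bound in windows of ordinates

Let `v ≥ 1` be a sequence with exponent of convergence at most `τ` (for `v_n = b ^ n` it is `0`). For all `α > 0` outside
a set of Hausdorff dimension at most `(max 0 (1 - 4 κ) + τ) / (1 - θ)` ALL real `t` with `|t - α v_n| ≤ v_n ^ θ`,
`n` large, satisfy `|ζ(1/2 + i t)| ≤ t ^ κ`.
-/

set_option autoImplicit false

namespace Pool.Agent.Results.MP_4e5e8a_nt.WindowsOfOrdinates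

open MeasureTheory Filter Topology

/-- `|ζ(1/2 + i t)|` -/
noncomputable def Z (t : ℝ) : ℝ := ‖riemannZeta (1 / 2 + t * Complex.I)‖

/-- the exponent of convergence of the sequence `v` is at most `τ` -/
def ExpLe (v : ℕ → ℝ) (τ : ℝ) : Prop := ∀ t : ℝ, τ < t → Summable (fun n : ℕ => (v n) ^ (-t))

open Pool.Agent.H107.ZW in
lemma count {κ : ℝ} (hκ : 0 < κ) : ∀ ε : ℝ, 0 < ε → ∃ C : ℝ, ∀ X : ℝ, 1 ≤ X →
    {t : ℕ | t ∈ Exc κ ∧ (t : ℝ) ≤ X}.Finite ∧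
      ({t : ℕ | t ∈ Exc κ ∧ (t : ℝ) ≤ X}.ncard : ℝ) ≤ C * X ^ (max 0 (1 - 4 * κ) + ε) := by
  refine Pool.Agent.H107.Dyad.count_of_dyadic (le_max_left _ _) (fun ε hε => ?_)
  set ε' : ℝ := min (ε / 5) 1 with hε'
  have h0 : 0 < ε' := lt_min (by positivity) one_pos
  obtain ⟨C, Y₀, hC, hY₀, h⟩ := block hκ h0 (min_le_right _ _)
  refine ⟨C, Y₀, fun Y hY F hF => (h Y hY F hF).trans ?_⟩
  refine mul_le_mul_of_nonneg_left ?_ hC
  refine Real.rpow_le_rpow_of_exponent_le (hY₀.trans hY) ?_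
  have h1 : 1 - 4 * κ ≤ max 0 (1 - 4 * κ) := le_max_right _ _
  have h2 : ε' ≤ ε / 5 := min_le_left _ _
  linarith

/-- windows -/
theorem windows {v : ℕ → ℝ} {τ θ κ : ℝ} (hv : ∀ n, 1 ≤ v n) (hτ : 0 ≤ τ) (hE : ExpLe v τ) (hθ : 0 ≤ θ)
    (hθ1 : θ < 1) (hκ : 0 < κ) :
    ∃ E : Set ℝ, dimH E ≤ ENNReal.ofReal ((max 0 (1 - 4 * κ) + τ) / (1 - θ)) ∧
      ∀ α : ℝ, 0 < α → α ∉ E → ∃ n₀ : ℕ, ∀ n : ℕ, n₀ ≤ n → ∀ t : ℝ, |t - α * v n| ≤ (v n) ^ θ → Z t ≤ t ^ κ := by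
  obtain ⟨E, h1, h2⟩ := Pool.Agent.H107.RW.real_windows (Pool.Agent.H107.ZW.Exc κ) hv hτ hE (le_max_left _ _)
    hθ hθ1 (count hκ)
  refine ⟨E, h1, fun α hα hαE => ?_⟩
  obtain ⟨n₁, h3⟩ := h2 α hα hαE
  have htv : Tendsto v atTop atTop :=
    Pool.Agent.Y854.GM.tendsto_of_expLe (fun n => lt_of_lt_of_le one_pos (hv n)) hτ hE
  -- the members of the windows are at least `1` for large `n`
  have hbig : ∀ᶠ n in atTop, 1 + (v n) ^ θ ≤ α * v n := by
    have h4 : Tendsto (fun n => (v n) ^ (1 - θ)) atTop atTop := (tendsto_rpow_atTop (by linarith)).comp htv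
    filter_upwards [h4.eventually_ge_atTop (2 / α)] with n hn
    have hvp : 0 < v n := lt_of_lt_of_le one_pos (hv n)
    have h5 : v n = (v n) ^ θ * (v n) ^ (1 - θ) := by
      rw [← Real.rpow_add hvp]
      rw [show θ + (1 - θ) = 1 by ring, Real.rpow_one]
    have h6 : 1 ≤ (v n) ^ θ := Real.one_le_rpow (hv n) hθ
    have h7 : 2 ≤ α * (v n) ^ (1 - θ) := by
      rw [div_le_iff₀ hα] at hn
      linarith
    have h8 : α * v n = (v n) ^ θ * (α * (v n) ^ (1 - θ)) := by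
      conv_lhs => rw [h5]
      ring
    rw [h8]
    nlinarith
  obtain ⟨n₂, h4⟩ := hbig.exists_forall_of_atTop
  refine ⟨max n₁ n₂, fun n hn t ht => ?_⟩
  have h5 := h4 n ((le_max_right _ _).trans hn)
  have h6 : 1 ≤ t := by
    have := (abs_le.1 ht).1
    linarith
  have h7 := h3 n ((le_max_left _ _).trans hn) t (by linarith) ht
  by_contra h8
  rw [not_le] at h8
  exact h7 ⟨Nat.le_floor (by exact_mod_cast h6), t, Nat.floor_le (by linarith), Nat.lt_floor_add_one t, h8⟩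

/-- **Theorem.** Let `v ≥ 1` be a sequence with exponent of convergence at most `τ ≥ 0`. (1) For `κ > 0` and
`0 ≤ θ < 1` there is a set `E` of Hausdorff dimension at most `(max (0, 1 - 4 κ) + τ) / (1 - θ)` such that for each
`α > 0` outside `E` all real `t` with `|t - α v_n| ≤ v_n ^ θ`, `n ≥ n₀`, satisfy `|ζ(1/2 + i t)| ≤ t ^ κ`.
(2) If `τ = 0` then for almost all `α > 0`, for all `κ > 0` and all `θ < min (1, 4 κ)`, all real `t` with
`|t - α v_n| ≤ v_n ^ θ`, `n ≥ n₀`, satisfy `|ζ(1/2 + i t)| ≤ t ^ κ`. (3) If `τ = 0` and `κ > 0` then the set of the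
`α > 0` with `|ζ(1/2 + i α v_n)| ≥ v_n ^ κ` for infinitely many `n` has Hausdorff dimension at most `max (0, 1 - 4 κ)`.
(4) The sequences `(n + 1) ^ a` and `b ^ n` have exponents of convergence at most `1 / a` and `0`. -/
theorem result :
    (∀ (v : ℕ → ℝ) (τ θ κ : ℝ), (∀ n, 1 ≤ v n) → 0 ≤ τ → ExpLe v τ → 0 ≤ θ → θ < 1 → 0 < κ →
      ∃ E : Set ℝ, dimH E ≤ ENNReal.ofReal ((max 0 (1 - 4 * κ) + τ) / (1 - θ)) ∧
        ∀ α : ℝ, 0 < α → α ∉ E → ∃ n₀ : ℕ, ∀ n : ℕ, n₀ ≤ n → ∀ t : ℝ, |t - α * v n| ≤ (v n) ^ θ →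
          Z t ≤ t ^ κ) ∧
    (∀ v : ℕ → ℝ, (∀ n, 1 ≤ v n) → ExpLe v 0 → ∀ᵐ α : ℝ, 0 < α → ∀ κ θ : ℝ, 0 < κ → θ < 1 → θ < 4 * κ →
      ∃ n₀ : ℕ, ∀ n : ℕ, n₀ ≤ n → ∀ t : ℝ, |t - α * v n| ≤ (v n) ^ θ → Z t ≤ t ^ κ) ∧
    (∀ (v : ℕ → ℝ) (κ : ℝ), (∀ n, 1 ≤ v n) → ExpLe v 0 → 0 < κ →
      dimH {α : ℝ | 0 < α ∧ ∃ᶠ n in atTop, (v n) ^ κ ≤ Z (α * v n)} ≤ ENNReal.ofReal (max 0 (1 - 4 * κ))) ∧
    (∀ a : ℝ, 0 < a → ExpLe (fun n : ℕ => ((n : ℝ) + 1) ^ a) (1 / a)) ∧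
    (∀ b : ℝ, 1 < b → ExpLe (fun n : ℕ => b ^ n) 0) := by
  refine ⟨fun v τ θ κ hv hτ hE hθ hθ1 hκ => windows hv hτ hE hθ hθ1 hκ, fun v hv hE => ?_,
    fun v κ hv hE hκ => ?_, fun κ hκ => Pool.Agent.Y854.GM.expLe_pow κ hκ,
    fun b hb => Pool.Agent.Y854.GM.expLe_geom b hb⟩
  · -- rational exponents
    have hq : ∀ p : ℚ × ℚ, ∃ E : Set ℝ, volume E = 0 ∧ (0 < (p.1 : ℝ) → 0 ≤ (p.2 : ℝ) → (p.2 : ℝ) < 1 →
        (p.2 : ℝ) < 4 * p.1 → ∀ α : ℝ, 0 < α → α ∉ E → ∃ n₀ : ℕ, ∀ n : ℕ, n₀ ≤ n → ∀ t : ℝ,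
          |t - α * v n| ≤ (v n) ^ (p.2 : ℝ) → Z t ≤ t ^ (p.1 : ℝ)) := by
      intro p
      by_cases h : 0 < (p.1 : ℝ) ∧ 0 ≤ (p.2 : ℝ) ∧ (p.2 : ℝ) < 1 ∧ (p.2 : ℝ) < 4 * p.1
      · obtain ⟨h1, h2, h3, h4⟩ := h
        obtain ⟨E, g1, g2⟩ := windows hv le_rfl hE h2 h3 h1
        refine ⟨E, ?_, fun _ _ _ _ => g2⟩
        rw [← hausdorffMeasure_real]
        refine hausdorffMeasure_of_dimH_lt (d := 1) ?_
        refine g1.trans_lt ?_
        have g3 : (max 0 (1 - 4 * (p.1 : ℝ)) + 0) / (1 - (p.2 : ℝ)) < 1 := by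
          rw [div_lt_one (by linarith), add_zero, max_lt_iff]
          constructor <;> linarith
        have g4 := (ENNReal.ofReal_lt_one).2 g3
        simpa using g4
      · refine ⟨∅, measure_empty, fun h1 h2 h3 h4 => absurd ⟨h1, h2, h3, h4⟩ h⟩
    choose E hE1 hE2 using hq
    have hae : ∀ᵐ α : ℝ, ∀ p, α ∉ E p := by
      rw [ae_all_iff]
      intro p
      exact compl_mem_ae_iff.2 (hE1 p)
    filter_upwards [hae] with α hαE hα κ θ hκ hθ1 hθκ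
    -- rational exponents between the given ones
    obtain ⟨θ', h1, h2⟩ : ∃ θ' : ℚ, max 0 θ < (θ' : ℝ) ∧ (θ' : ℝ) < min 1 (4 * κ) :=
      exists_rat_btwn (max_lt (lt_min one_pos (by linarith)) (lt_min hθ1 hθκ))
    obtain ⟨κ', h3, h4⟩ : ∃ κ' : ℚ, (θ' : ℝ) / 4 < (κ' : ℝ) ∧ (κ' : ℝ) < κ :=
      exists_rat_btwn (by linarith [(lt_min_iff.1 h2).2])
    have h5 := (max_lt_iff.1 h1)
    have h6 := (lt_min_iff.1 h2)
    obtain ⟨n₀, h7⟩ := hE2 (κ', θ') (by simp only; linarith [h5.1]) h5.1.le h6.1 (by simp only; linarith)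
      α hα (hαE _)
    have htv : Tendsto v atTop atTop :=
      Pool.Agent.Y854.GM.tendsto_of_expLe (fun n => lt_of_lt_of_le one_pos (hv n)) le_rfl hE
    have hbig : ∀ᶠ n in atTop, 1 + (v n) ^ (θ' : ℝ) ≤ α * v n := by
      have g4 : Tendsto (fun n => (v n) ^ (1 - (θ' : ℝ))) atTop atTop :=
        (tendsto_rpow_atTop (by linarith [h6.1])).comp htv
      filter_upwards [g4.eventually_ge_atTop (2 / α)] with n hn
      have hvp : 0 < v n := lt_of_lt_of_le one_pos (hv n)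
      have g5 : v n = (v n) ^ (θ' : ℝ) * (v n) ^ (1 - (θ' : ℝ)) := by
        rw [← Real.rpow_add hvp]
        rw [show (θ' : ℝ) + (1 - θ') = 1 by ring, Real.rpow_one]
      have g6 : 1 ≤ (v n) ^ (θ' : ℝ) := Real.one_le_rpow (hv n) h5.1.le
      have g7 : 2 ≤ α * (v n) ^ (1 - (θ' : ℝ)) := by
        rw [div_le_iff₀ hα] at hn
        linarith
      have g8 : α * v n = (v n) ^ (θ' : ℝ) * (α * (v n) ^ (1 - (θ' : ℝ))) := by
        conv_lhs => rw [g5]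
        ring
      rw [g8]
      nlinarith
    obtain ⟨n₂, h8⟩ := hbig.exists_forall_of_atTop
    refine ⟨max n₀ n₂, fun n hn t ht => ?_⟩
    have h9 : |t - α * v n| ≤ (v n) ^ (θ' : ℝ) :=
      ht.trans (Real.rpow_le_rpow_of_exponent_le (hv n) h5.2.le)
    have h10 := h8 n ((le_max_right _ _).trans hn)
    have h11 : 1 ≤ t := by
      have := (abs_le.1 h9).1
      linarith
    exact (h7 n ((le_max_left _ _).trans hn) t h9).trans (Real.rpow_le_rpow_of_exponent_le h11 h4.le)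
  · -- the spectrum
    have htv : Tendsto v atTop atTop :=
      Pool.Agent.Y854.GM.tendsto_of_expLe (fun n => lt_of_lt_of_le one_pos (hv n)) le_rfl hE
    have h1 : ∀ k : ℕ, dimH {α : ℝ | 0 < α ∧ ∃ᶠ n in atTop, (v n) ^ κ ≤ Z (α * v n)} ≤
        ENNReal.ofReal (max 0 (1 - 4 * (κ - κ * (1 / ((k : ℝ) + 2))))) := by
      intro k
      have hk : 1 / ((k : ℝ) + 2) < 1 := by
        rw [div_lt_one (by positivity)]
        have : (0 : ℝ) ≤ k := Nat.cast_nonneg k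
        linarith
      have hk0 : 0 < 1 / ((k : ℝ) + 2) := by positivity
      set κ' : ℝ := κ - κ * (1 / ((k : ℝ) + 2)) with hκ'
      have hκ'0 : 0 < κ' := by
        rw [hκ']
        nlinarith
      have hκ'1 : κ' < κ := by
        rw [hκ']
        nlinarith
      obtain ⟨E, g1, g2⟩ := windows hv le_rfl hE le_rfl one_pos hκ'0
      rw [add_zero, sub_zero, div_one] at g1
      refine le_trans (dimH_mono ?_) g1
      rintro α ⟨hα, hf⟩
      by_contra hαE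
      obtain ⟨n₀, g3⟩ := g2 α hα hαE
      -- `(α v) ^ κ' < v ^ κ` for large `v`
      have g4 : Tendsto (fun n => (v n) ^ (κ - κ')) atTop atTop :=
        (tendsto_rpow_atTop (by linarith)).comp htv
      have g5 : ∀ᶠ n in atTop, ¬ (v n) ^ κ ≤ Z (α * v n) := by
        filter_upwards [g4.eventually_gt_atTop (α ^ κ'), eventually_ge_atTop n₀] with n hn hn0
        rw [not_le]
        have hvp : 0 < v n := lt_of_lt_of_le one_pos (hv n)
        have g6 := g3 n hn0 (α * v n) (by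
          rw [sub_self, abs_zero]
          positivity)
        refine g6.trans_lt ?_
        rw [Real.mul_rpow hα.le hvp.le]
        calc α ^ κ' * (v n) ^ κ' < (v n) ^ (κ - κ') * (v n) ^ κ' :=
              mul_lt_mul_of_pos_right hn (by positivity)
          _ = (v n) ^ κ := by
              rw [← Real.rpow_add hvp]
              congr 1
              ring
      exact hf g5
    have h2 : Tendsto (fun k : ℕ => ENNReal.ofReal (max 0 (1 - 4 * (κ - κ * (1 / ((k : ℝ) + 2)))))) atTop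
        (𝓝 (ENNReal.ofReal (max 0 (1 - 4 * (κ - κ * 0))))) := by
      apply ENNReal.tendsto_ofReal
      have h3 : Tendsto (fun k : ℕ => 1 / ((k : ℝ) + 2)) atTop (𝓝 0) := by
        have h4 := (tendsto_one_div_add_atTop_nhds_zero_nat (𝕜 := ℝ)).comp (tendsto_add_atTop_nat 1)
        refine h4.congr (fun k => ?_)
        simp only [Function.comp_apply]
        push_cast
        ring
      exact tendsto_const_nhds.max (tendsto_const_nhds.sub
        ((tendsto_const_nhds.sub (h3.const_mul κ)).const_mul 4))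
    rw [mul_zero, sub_zero] at h2
    exact ge_of_tendsto' h2 h1

end Pool.Agent.Results.MP_4e5e8a_nt.WindowsOfOrdinates
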